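import Pool.Agent.Helper28.OHS.Num
import Pool.Agent.Helper94.OH2.MCOR2
import Pool.Agent.Helper81.Sus2.Goals

/-!
# Machines with one head and descriptions of the tape: the statements of the parts

Every statement comes with its proof in words. A packet may assume the statements which are named in
its text as hypotheses. `GEO_stmt`, `STEP_stmt` are in `Helper65/OH/Goals.lean` and proved.
-/

namespace Pool.Agent.Helper28.OHS

open Pool.Agent.Helper65.LinSpace Pool.Agent.Helper78.Mpc Pool.Agent.Helper28.Ram Finset Filter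
open Pool.Agent.Helper65.OH (Prm OneHead Conf Par InBox co bz GoodQ Fns GEO_stmt STEP_stmt)
open Pool.Agent.Helper53.OH (In Out)
open Pool.Agent.Helper94.OH2 (QQ)
open Pool.Agent.Helper28.Few (mcf chs Absorb)
open Pool.Agent.Helper81.Sus2 (Decomp CodE)

/-! ### Geometry -/

/-- The number of the cell `p` as a cell of the box. -/
def cd {D : ℕ} (m : Prm) (p : Fin D → ℤ) : ℕ := tab (2 ^ m.κ) D (co m.κ p)

/-- CEL. Names of cells. `co κ p k = (p k + 2 ^ (κ - 1)).toNat < 2 ^ κ` for cells in the box.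
`num (Nat.bits a) = a + 2 ^ (Nat.bits a).length` (`Helper11.Ram.num_eq_bval`, `bval (Nat.bits a) = a` by
`Nat.binaryRec`), and the length is `0` for `a = 0` and `log 2 a + 1` otherwise (`Nat.size`), so
`binN a = num (Nat.bits a)`. With `u = co κ p k`, `C = 2 ^ (κ - 1)`: `p k = u - C`, `0 ≤ p k` iff `C ≤ u`,
and `|p k| = (u - C) + (C - u)` (truncated). `num (b :: v) = b.toNat + 2 * num v`, so
`intN κ u = num (intW (p k))`. Then by induction on `j ≤ D` (`List.ofFn_succ'`, `List.flatten_concat`,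
`catN_num`, `sdN_num`) `cellN κ u j` is `num` of the name made of the first `j` coordinates. The second
part is induction on `D`. -/
structure CEL_stmt : Prop where
  name : ∀ {D : ℕ} (κ : ℕ) (p : Fin D → ℤ), 0 < κ → InBox κ p →
    cellN κ (co κ p) D = num (cellW p)
  congr : ∀ (κ D : ℕ) (u v : ℕ → ℕ), (∀ k < D, u k = v k) → cellN κ u D = cellN κ v D

/-- CUB. Cubes and cells. `dig_tab`, `tab_lt`, `tab_congr`, `tab_dig` in `LinSpace/Arith2.lean`; compare
`Pool/Agent/Helper65/OH/GEO.lean`. (`cube`): the digits of `bz m p` are `(co + o) / d` (smaller than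
`2 ^ κ`, see `bz_lt` in `Helper53/OH/MCOR.lean`), those of `cz m p` are `(co + o) % d`. (`cell`):
`m.cq (2 ^ (S + 1) * x) k = dig (2 ^ κ) x k`; congruence of `tab`; `cd m p < (2 ^ κ) ^ D`. (`uniq`): `q` is
determined by `q % 2 ^ (S + 1)` and the digits of `q / 2 ^ (S + 1) < (2 ^ κ) ^ D` (`tab_dig`). (`surj`): the
cell with the coordinates `dig (2 ^ κ) x k - 2 ^ (κ - 1)`; `tab_dig`. -/
structure CUB_stmt : Prop where
  cube : ∀ {D : ℕ} (m : Prm) (p : Fin D → ℤ), m.D = D → 0 < m.d → m.o < m.d → InBox m.κ p →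
    ∀ k < D, (dig (2 ^ m.κ) (bz m p) k * m.d + dig m.d (Pool.Agent.Helper65.OH.cz m p) k - m.o) %
      2 ^ m.κ = co m.κ p k
  cell : ∀ {D : ℕ} (m : Prm) (p : Fin D → ℤ), m.D = D → InBox m.κ p →
    m.blk (2 ^ (m.S + 1) * cd m p) = bz m p ∧
    m.cel (2 ^ (m.S + 1) * cd m p) = Pool.Agent.Helper65.OH.cz m p ∧
    cd m p < 2 ^ (m.κ * m.D) ∧ ∀ k < D, dig (2 ^ m.κ) (cd m p) k = co m.κ p k
  uniq : ∀ {D : ℕ} (m : Prm) (C : Conf D) (q q' : ℕ), m.D = D → GoodQ m C q → GoodQ m C q' → q = q'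
  surj : ∀ {D : ℕ} (m : Prm) (x : ℕ), m.D = D → 0 < m.κ → x < 2 ^ (m.κ * m.D) →
    ∃ p : Fin D → ℤ, InBox m.κ p ∧ cd m p = x

/-! ### The steps in a cube -/

/-- SLS. The steps in a cube, with the number of the steps, soundness (may assume GEO, STEP). As
`loop` (`Helper53/OH/MCOR.lean`): `rn m b z (n + 1) = m.loc b (rn m b z n)` and
`ct m b z (n + 1) = ct m b z n + act m b (rn m b z n)`. The step is made if and only if the head is in the
cube and the state is not accepting; in the other cases `loc` keeps the code (`acc_step`), and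
`act = 0`. If `wq = 0` it remains `0` (`loop_fail`). -/
def SLS_stmt : Prop := ∀ {D : ℕ} (A : OneHead D) (eA eN eW c : ℕ) (w y : List Bool) (m : Prm),
    Par A eA eN eW c w y m → m.o < m.d → Fns A m → ∀ (b t z : ℕ), In A w y m b t z t → ∀ n,
    m.wq (rn m b z n % 2 ^ m.sg) = 0 ∨ In A w y m b t (rn m b z n) (t + ct m b z n)

/-- SLC. The steps in a cube, completeness (may assume GEO, STEP). As `loop3`
(`Helper94/OH2/MCOR2.lean`), see SLS. No state from the time `t` on and before the time `r` is accepting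
and `t + ct m b z n ≤ t + n < r` before the step number `n < r - t`, so `ct` only stops when the head
leaves the cube; `ok ≠ 0` by `A.Fits` and `InBox` as in `loop3`. -/
def SLC_stmt : Prop := ∀ {D : ℕ} (A : OneHead D) (eA eN eW c : ℕ) (w y : List Bool) (m : Prm),
    Par A eA eN eW c w y m → m.o < m.d → Fns A m → ∀ (b t z r : ℕ), In A w y m b t z t →
    z / 2 ^ m.sg < QQ m → A.Fits w y r m.S → (∀ u ≤ r, InBox m.κ (A.conf w y u).h) →
    (∀ u < r, t ≤ u → ¬A.AcceptsAt w y u) → ∀ n, t + n ≤ r →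
    In A w y m b t (rn m b z n) (t + ct m b z n) ∧
    (∀ i, t ≤ i → i < t + ct m b z n → bz m (A.conf w y i).h = b) ∧
    (ct m b z n = n ∨ bz m (A.conf w y (t + ct m b z n)).h ≠ b) ∧
    rn m b z n / 2 ^ m.sg < QQ m ∧
    ((∀ v, t ≤ v → v < t + ct m b z n → (A.conf w y (v + 1)).M = (A.conf w y v).M) →
      rn m b z n / 2 ^ m.sg = z / 2 ^ m.sg)

/-! ### A part of a computation -/

/-- The configuration with the number `c` describes `C`. -/
structure Rep {D : ℕ} (m : Prm) (e : Pool.Agent.Helper81.Sus2.Prm) (c : ℕ) (C : Conf D) :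
    Prop where
  ne : c ≠ 0
  good : GoodQ m C (cs m c)
  ct : ∀ p, InBox m.κ p → cn m e c (cellN m.κ (co m.κ p) m.D) = capN m.S (num (C.M p))

/-- SND. Soundness (may assume GEO, CEL, CUB, SLS). Invariant of `wf` after `T` steps, with the event
`Q` and the memory `M`: `Q = 0`, or `Q = 1` and the conclusion holds, or there are `t ≤ τ` and `q` with
`Q = enc m q t` and `Out A w y m (q, M) (t₀ + t)`. Start: `w0` is `0` or `enc m (cs m c) 0`, and
`dig (2 ^ (S + 1)) (cm m e c (bz m p)) (cz m p) = cc m e c (bz m p) (cz m p)` (`dig_mod_a`, `dig_tab`,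
`capN_lt`, `cz_lt`), which is `cn m e c (cellN κ (co κ p) D) = capN S (num (C.M p))` (`CUB.cube`,
`CEL.congr`). Step, `Q = enc m q t` with `q < 2 ^ sg`: `dq m Q = q`, `dt m Q = t`; `m.blk q = bz m (head)`
(`GEO.blk`), smaller than `2 ^ sg ≤ 2 ^ (V + 1)` (`bz_lt`), so `capN V` keeps it. For `t < τ`: `out_in`, then
`SLS` for `n = τ - t`, and `in_out` (with `m.σ = m.sg`; `ct m b z n ≤ n`, so the new time is at most `τ`; if
`wq = 0` the event is `0`; `capN V` gives `0` or keeps the event). For `t = τ`: the cube of the cell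
number `a - 1` is read, nothing is changed (`v % 2 ^ a`, see `dig_mod_a`), and the new event is `wF`, which
is `0` or `1`. If it is `1`: `d = 0`: `accN_num`; `d ≠ 0`: `q = cs m d`, and for `a = cd m p + 1`
(`CUB.cell`) `capN S (num (M p)) = dig … v (cz m p) = cn m e d (cellN κ (dig (2 ^ κ) (cd m p)) D)`, and
`CEL.congr`. `0` and `1` are kept. -/
def SND_stmt : Prop := ∀ {D : ℕ} (A : OneHead D) (eA eN eW c₀ : ℕ) (w y : List Bool) (m : Prm)
    (e : Pool.Agent.Helper81.Sus2.Prm), Par A eA eN eW c₀ w y m → m.o < m.d → Fns A m →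
    m.sg ≤ e.V + 1 → ∀ (c d a τ t₀ T : ℕ), Rep m e c (A.conf w y t₀) →
    (wf m e τ c d a T).1 = 1 →
    (d = 0 → A.AcceptsAt w y (t₀ + τ)) ∧
    (d ≠ 0 → GoodQ m (A.conf w y (t₀ + τ)) (cs m d) ∧
      ∀ p, InBox m.κ p → a = cd m p + 1 →
        cn m e d (cellN m.κ (co m.κ p) m.D) = capN m.S (num ((A.conf w y (t₀ + τ)).M p)))

/-- After the step `u` the head is in another cube. -/
def Cr {D : ℕ} (A : OneHead D) (w y : List Bool) (m : Prm) (u : ℕ) : Prop :=
  ∃ k < D, (co m.κ (A.conf w y u).h k + m.o) / m.d ≠ (co m.κ (A.conf w y (u + 1)).h k + m.o) / m.d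

open Classical in
/-- The number of the steps `u` with `t₀ ≤ u < t₀ + τ` which lead into another cube. -/
noncomputable def crs {D : ℕ} (A : OneHead D) (w y : List Bool) (m : Prm) (t₀ τ : ℕ) : ℕ :=
  ((range τ).filter fun i => Cr A w y m (t₀ + i)).card

open Classical in
/-- The number of those which are not free. -/
noncomputable def ncr {D : ℕ} (A : OneHead D) (w y : List Bool) (m : Prm) (t₀ τ : ℕ) : ℕ :=
  ((range τ).filter fun i => A.New w y (t₀ + i) ∧ Cr A w y m (t₀ + i)).card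

/-- CMP. Completeness (may assume GEO, CEL, CUB, SLC). As `inv2` and `inv3` (`Helper53/OH/MCOR.lean`,
`Helper94/OH2/MCOR2.lean`). Invariant after `T` steps: all contents are smaller than `QQ m`
(`sv_lt`; at the start `tab_lt`, `Nat.mod_le`), and there is a `t ≤ τ` with the event `enc m q t`,
`Out A w y m (q, M) (t₀ + t)`, and either `t = τ` and `chs … T ≤ ncr … τ + 1`, or `t < τ`,
`T ≤ crs … t` and `chs … T ≤ ncr … t`; for as long as the final check was not made. (`enc m q t` is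
smaller than `2 ^ (V + 1)` for `q < 2 ^ sg`, `t ≤ τ`.) Step from `t < τ`: `SLC` with `n = τ - t` and
`r = t₀ + τ`. If the new time `t₀ + t'` is not `t₀ + τ` then the head has left the cube, the step
`u = t₀ + t' - 1` leads into another cube (`GEO.cross`), and if the content of the cube has changed then
some step `v` between changes the content of a cell, and `u` is new (`A.New`, see `inv3`). So after
`crs … τ + 1` steps the time is `τ` (`T ≤ crs … t ≤ crs … τ` otherwise; a step which starts at `τ` is the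
final check, take the first `T` with `t = τ`), and the next step is the final check with the result
`1`: for `d ≠ 0` the code `q` is `cs m d` (`CUB.uniq`); for `a = cd m p + 1` the cube of `p` is read and the
digit is `capN S (num (M p))` (`CUB.cell`, `CEL.congr`). It does not change the content
(`v % 2 ^ a = v`). The event `1` is kept, and with it the memory (contents are smaller than `2 ^ a`):
`Absorb`. -/
def CMP_stmt : Prop := ∀ {D : ℕ} (A : OneHead D) (eA eN eW c₀ : ℕ) (w y : List Bool) (m : Prm)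
    (e : Pool.Agent.Helper81.Sus2.Prm), Par A eA eN eW c₀ w y m → m.o < m.d → Fns A m →
    m.sg ≤ e.V + 1 → ∀ (c d a τ t₀ : ℕ), Rep m e c (A.conf w y t₀) →
    A.Fits w y (t₀ + τ) m.S → (∀ u ≤ t₀ + τ, InBox m.κ (A.conf w y u).h) →
    (∀ u < t₀ + τ, t₀ ≤ u → ¬A.AcceptsAt w y u) →
    2 + 2 ^ m.sg * (τ + 1) ≤ 2 ^ (e.V + 1) →
    (d = 0 → A.AcceptsAt w y (t₀ + τ)) →
    (d ≠ 0 → GoodQ m (A.conf w y (t₀ + τ)) (cs m d) ∧ (a = 0 ∨ ∃ p : Fin D → ℤ, InBox m.κ p ∧
      a = cd m p + 1 ∧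
      cn m e d (cellN m.κ (co m.κ p) m.D) = capN m.S (num ((A.conf w y (t₀ + τ)).M p)))) →
    Absorb (wA m e τ a) (wN m e τ d a) (wW m τ) (w0 m e c) (cm m e c) (fun Q => Q = 1) ∧
    (wf m e τ c d a (crs A w y m t₀ τ + 2)).1 = 1 ∧
    chs (wA m e τ a) (wN m e τ d a) (wW m τ) (w0 m e c) (cm m e c) (crs A w y m t₀ τ + 2) ≤
      ncr A w y m t₀ τ + 1

/-- The parameters with the shift `o`. -/
def sh (m : Prm) (o : ℕ) : Prm := { m with o := o }

/-- WIN. A part of a computation (may assume CMP, CUB, `CROSS2_stmt` of `Helper65/OH2/Goals.lean`). Let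
`N = A.New`, and apply CROSS2 to `p i k = co κ (A.conf w y (t₀ + i)).h k`, `r = τ`, `H = 2 ^ h`
(`co_step` in `Helper65/OH/Main.lean`), which gives the shift `o < d` (for all `a`). As in `exists_good2` of
`Helper65/OH2/Main.lean` with `Z = ncr`, `R = crs`: `d * (Z + R / 2 ^ h) ≤ D * (2 * x + 1)`, so for
`x' = Z + R / 2 ^ h + 1`: `R + 2 ≤ 2 ^ h * (x' + 1)`, `Z + 1 ≤ x'`, `2 * x' + 1 ≤ T`, and
`macro_complete` (`Few/Macro.lean`) gives the claim. (`Par`, `Fns`, `Rep` for `m` and for `sh m o` are the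
same by definition, field by field; `Cr` is for `sh m o`.) For `a ≠ 0` take `p` with
`cd m p = a - 1` (`CUB.surj`; `m.D = D` by `Par`). -/
def WIN_stmt : Prop := ∀ {D : ℕ} (A : OneHead D) (eA eN eW c₀ : ℕ) (w y : List Bool) (m : Prm)
    (e : Pool.Agent.Helper81.Sus2.Prm), Par A eA eN eW c₀ w y m → Fns A m →
    m.sg ≤ e.V + 1 → ∀ (c d τ t₀ x h T : ℕ), Rep m e c (A.conf w y t₀) →
    A.Fits w y (t₀ + τ) m.S → (∀ u ≤ t₀ + τ, InBox m.κ (A.conf w y u).h) →
    (∀ u < t₀ + τ, t₀ ≤ u → ¬A.AcceptsAt w y u) →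
    2 + 2 ^ m.sg * (τ + 1) ≤ 2 ^ (e.V + 1) →
    (d = 0 → A.AcceptsAt w y (t₀ + τ)) → (d ≠ 0 → Rep m e d (A.conf w y (t₀ + τ))) →
    steps A w y t₀ (t₀ + τ) ≤ x → τ ≤ 2 ^ h * (x + 1) →
    2 * D * (2 * x + 1) + 3 * m.d ≤ m.d * T →
    ∃ o < m.d, ∀ a, (a = 0 ∨ (d ≠ 0 ∧ a ≤ 2 ^ (m.κ * m.D))) →
      (mcf (wA (sh m o) e τ a) (wN (sh m o) e τ d a) (wW (sh m o) τ) h (w0 (sh m o) e c)
        (cm (sh m o) e c) T).1 = 1

/-! ### The whole computation -/

/-- LOP. A computation without repetitions. Suppose `t' > t + 2 ^ h * (x + 1)`. Every step which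
changes the content of a cell has the property `New` (take `v = t`), so at most `x` of the steps `u` with
`t ≤ u < t'` change the content of a cell, and one of the `x + 1` intervals
`[t + i * 2 ^ h, t + (i + 1) * 2 ^ h)`, `i ≤ x`, contains no such step. At the `2 ^ h + 1` times
`u, …, u + 2 ^ h` of this interval the contents are the same, and state and position are coded by
`num q + 2 ^ (s + 1) * tab (2 ^ (b + 1)) D (co (b + 1) h) < 2 ^ (s + 1 + (b + 1) * D) ≤ 2 ^ h` (injective), so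
two of the configurations are equal, the computation is periodic from there on, and it would be
accepting at a time before `r`. Compare the last part of `macro_complete` (`Few/Macro.lean`,
`periodic`). -/
def LOP_stmt : Prop := ∀ {D : ℕ} (A : OneHead D) (w y : List Bool) (r s b h x t t' : ℕ),
    A.Fits w y r s → (∀ u ≤ r, Box b (A.conf w y u).h) → A.AcceptsAt w y r →
    (∀ u < r, ¬A.AcceptsAt w y u) → t ≤ t' → t' ≤ r → steps A w y t t' ≤ x →
    s + (b + 1) * D < h → t' ≤ t + 2 ^ h * (x + 1)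

/-- DSC. Descriptions give configurations (may assume CEL, `DEC_stmt` of
`Helper81/Sus2/Goals.lean`). `0`: `cs m 1` is `mk'` of the start, as in `start` of
`Helper53/OH/MCOR.lean`; `cn m e 1 x = capN S 1 = 1 = num []`. `1`: let `D₀` be the description, let `q` be the
code of state and position, `q = m.mk' (num C.q) (co κ C.h)` (`GEO.code`), and
`d = 2 + (q + 2 ^ sg * num D₀)`; `d ≠ 1`, `(d - 2) % 2 ^ sg = q`, `(d - 2) / 2 ^ sg = num D₀`,
`num D₀ < 2 ^ (e.z + 1)`. By DEC `e.lk (num D₀) (num (cellW p)) = num (C.M p)`, and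
`cellN κ (co κ p) D = num (cellW p)`. `Box b p` is `InBox (b + 1) p`. -/
structure DSC_stmt : Prop where
  start : ∀ {D : ℕ} (A : OneHead D) (eA eN eW c₀ : ℕ) (w y : List Bool) (m : Prm)
    (e : Pool.Agent.Helper81.Sus2.Prm), Par A eA eN eW c₀ w y m → A.start.length ≤ m.S →
    Rep m e 1 (A.conf w y 0)
  short : ∀ {D : ℕ} (A : OneHead D) (E : Decomp) (eA eN eW c₀ : ℕ) (w y : List Bool) (m : Prm)
    (e : Pool.Agent.Helper81.Sus2.Prm), Par A eA eN eW c₀ w y m → CodE E e → e.x = num w →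
    e.y = num y → ∀ b t : ℕ, m.κ = b + 1 → (A.conf w y t).q.length ≤ m.S →
    Box b (A.conf w y t).h → Short A E w y b e.Z e.z t →
    ∃ d, 2 ≤ d ∧ d < nz m e ∧ Rep m e d (A.conf w y t)

/-- CHK (may assume SND, CUB). Soundness of the checks. `F = 1` gives `T`, `t'` with
`(wf … t').1 = 1` (`macro_sound` in `Few/Macro.lean`). If `chk ≠ 0` then `0 < τ`, `d ≠ 0`, and there is a
shift `o < d` such that `F c d τ o a = 1` for all `a ≤ 2 ^ (κ D)`; `a = 0` gives `GoodQ`, and for a cell `p` of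
the box take `a = cd m p + 1` (`CUB.cell`). -/
structure CHK_stmt : Prop where
  chk : ∀ {D : ℕ} (A : OneHead D) (eA eN eW c₀ : ℕ) (w y : List Bool) (m : Prm)
    (e : Pool.Agent.Helper81.Sus2.Prm), Par A eA eN eW c₀ w y m → Fns A m →
    m.sg ≤ e.V + 1 → ∀ (F : ℕ → ℕ → ℕ → ℕ → ℕ → ℕ) (h T : ℕ),
    (∀ c d τ o a, F c d τ o a = (mcf (wA (sh m o) e τ a) (wN (sh m o) e τ d a) (wW (sh m o) τ) h
      (w0 (sh m o) e c) (cm (sh m o) e c) T).1) →
    ∀ c τ d t, Rep m e c (A.conf w y t) → chk m F c τ d ≠ 0 →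
      Rep m e d (A.conf w y (t + τ)) ∧ 0 < τ
  ac : ∀ {D : ℕ} (A : OneHead D) (eA eN eW c₀ : ℕ) (w y : List Bool) (m : Prm)
    (e : Pool.Agent.Helper81.Sus2.Prm), Par A eA eN eW c₀ w y m → Fns A m →
    m.sg ≤ e.V + 1 → ∀ (F : ℕ → ℕ → ℕ → ℕ → ℕ → ℕ) (h T : ℕ),
    (∀ c d τ o a, F c d τ o a = (mcf (wA (sh m o) e τ a) (wN (sh m o) e τ d a) (wW (sh m o) τ) h
      (w0 (sh m o) e c) (cm (sh m o) e c) T).1) →
    ∀ c τ t, Rep m e c (A.conf w y t) → ac m F c τ ≠ 0 → ∃ r, A.AcceptsAt w y r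

end Pool.Agent.Helper28.OHS
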