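import Pool.Agent.Helper65.OH2.Defs
import Pool.Agent.Helper81.Sus2.Defs

/-!
# Machines with one head, and descriptions of their tape: definitions
-/

namespace Pool.Agent.Helper28.OHS

open Pool.Agent.Helper65.LinSpace Pool.Agent.Helper78.Mpc Pool.Agent.Helper28.Ram
open Pool.Agent.Helper65.OH
open Pool.Agent.Helper81.Sus2 (Decomp)

/-- The word for an integer: the letter `1` if it is not negative and `0` otherwise, and then the
binary digits of the absolute value. -/
def intW (z : ℤ) : List Bool := decide (0 ≤ z) :: z.natAbs.bits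

variable {D : ℕ}

/-- The name of the cell `p`: the self-delimiting codes of its coordinates. -/
def cellW (p : Fin D → ℤ) : List Bool := (List.ofFn fun k => sd (intW (p k))).flatten

/-- The cell `p` is in the box. -/
def Box (b : ℕ) (p : Fin D → ℤ) : Prop := ∀ k, -2 ^ b ≤ p k ∧ p k < 2 ^ b

/-- The tape at the time `t` (the contents of all cells in the box) has a description of at most `z`
bits for the decompressor `E`, which has random access to the input word `w`, the advice word `y` and
the description `d`. -/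
def Short (A : OneHead D) (E : Decomp) (w y : List Bool) (b a z t : ℕ) : Prop :=
  ∃ d : List Bool, d.length ≤ z ∧
    ∀ p : Fin D → ℤ, Box b p → E.Says w y a d (cellW p) ((A.conf w y t).M p)

/-- The number of the steps from the time `t` to the time `t'` which are not free: after the step the
head is on a cell which it has not visited since the last change of the content of a cell. -/
noncomputable def steps (A : OneHead D) (w y : List Bool) (t t' : ℕ) : ℕ :=
  {u : ℕ | t ≤ u ∧ u < t' ∧ A.New w y u}.ncard

/-- The machine accepts at some time `r`, with the following bounds, where `n` is the length of the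
input word: states, addresses and the contents of the cells have at most `s` bits, and the head stays
in the box; if the tape has no description of at most `c n` bits at the times strictly between `t`
and `t' ≤ r`, then there are at most `x` steps from the time `t` to the time `t'` which are not free,
and `t' - t` is at most `2 ^ h (x + 1)` or `s + (b + 1) D < h`. For `l = h + b + ⌊log₂ n⌋ + 1`:
`x s ^ (1 + 1 / D) l ^ 4 ≤ C (n + 1) ^ (3 / 2 + 1 / D)`, `(s + l) (h + 1) l ≤ C (n + 1) ^ (1 / 2)`,
and `a l ^ 2 ≤ C (n + 1)`. -/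
def Within (A : OneHead D) (E : Decomp) (c : ℕ) (C : ℝ) (w y : List Bool) : Prop :=
  ∃ r s b a x h : ℕ, A.AcceptsAt w y r ∧ A.Fits w y r s ∧ (∀ t ≤ r, Box b (A.conf w y t).h) ∧
    (∀ t t' : ℕ, t ≤ t' → t' ≤ r →
      (∀ u, t < u → u < t' → ¬Short A E w y b a (c * w.length) u) →
      steps A w y t t' ≤ x ∧ (t' ≤ t + 2 ^ h * (x + 1) ∨ s + (b + 1) * D < h)) ∧
    (x : ℝ) * (s : ℝ) ^ (1 + 1 / (D : ℝ)) *
        (((h + b : ℕ) : ℝ) + ((Nat.log 2 w.length : ℝ) + 1)) ^ 4 ≤
      C * ((w.length : ℝ) + 1) ^ ((3 : ℝ) / 2 + 1 / (D : ℝ)) ∧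
    ((s : ℝ) + (((h + b : ℕ) : ℝ) + ((Nat.log 2 w.length : ℝ) + 1))) * ((h : ℝ) + 1) *
        (((h + b : ℕ) : ℝ) + ((Nat.log 2 w.length : ℝ) + 1)) ≤
      C * ((w.length : ℝ) + 1) ^ ((1 : ℝ) / 2) ∧
    (a : ℝ) * (((h + b : ℕ) : ℝ) + ((Nat.log 2 w.length : ℝ) + 1)) ^ 2 ≤
      C * ((w.length : ℝ) + 1)

end Pool.Agent.Helper28.OHS
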