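import Pool.Agent.Helper28.OHS.Goals2
import Pool.Agent.Helper65.OH2.Main
import Pool.Agent.Helper28.Sus.Fin

/-!
# Machines with one head and descriptions of the tape: the final theorem from its parts
-/

namespace Pool.Agent.Helper28.OHS

open Pool.Agent.Helper65.LinSpace Pool.Agent.Helper78.Mpc Pool.Agent.Helper28.Ram Finset Filter
open Pool.Agent.Helper65.OH (Prm OneHead Conf Par InBox co bz GoodQ Fns dm sd2 kap
  one_le_of_accepts)
open Pool.Agent.Helper54.OH (PF)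
open Pool.Agent.Helper81.Sus2 (Decomp CodE LSP)
open Pool.Agent.Helper81.Tok2 (gH CH)
open Pool.Agent.Helper28.Few (mcf Sim macro_sound)
open Pool.Agent.Helper28.Long (ZL)
open Pool.Agent.Helper31.SusD (itr itr_sound itr_complete)
open Pool.Agent.Helper28.Sus (lt_ne ev_cod)

/-- The parts of the proof. -/
structure Parts : Prop where
  win : WIN_stmt
  lop : LOP_stmt
  dsc : DSC_stmt
  chk : CHK_stmt
  lsw : LSW_stmt
  lsk : LSK_stmt
  cod : COD_stmt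
  prm : PRM_stmt
  par : PAR_stmt

/-! ### The simulation of a part -/

section

variable (hPRM : PRM_stmt) (k u x y T c d τ o a : ℕ)

/-- The machine on numbers with the parameters of the simulation. -/
def mach : Pool.Agent.Helper81.Tok2.Mach :=
  tok (sh (pm u x y T) o) (pe k u x y T) τ c d a (hh u x T) (gb u x T)

include hPRM

theorem ok_mach : (mach k u x y T c d τ o a).Ok := by
  obtain ⟨h1, _⟩ := hPRM.ok k u x y T
  exact ⟨Nat.succ_pos _, Nat.div_pos h1 (Nat.succ_pos _), fun q => capN_lt _ _,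
    fun q v => capN_lt _ _, fun q v => Nat.mod_lt _ (by positivity), capN_lt _ _,
    fun b => Nat.mod_lt _ (by positivity)⟩

theorem par_mach : Pool.Agent.Helper81.Tok2.Par (Nat.log 2 x) (mach k u x y T c d τ o a) := by
  obtain ⟨h1, h2, _⟩ := hPRM.ok k u x y T
  exact ⟨h1, h2, rfl, rfl, le_rfl⟩

end

/-- The simulation. -/
noncomputable def FF (Q : Sim) (k u x y T c d τ o a : ℕ) : ℕ :=
  Q.sim (Nat.log 2 x) (mach k u x y T c d τ o a)

/-- The number of macro steps. -/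
def TT (k u x y T : ℕ) : ℕ := gb u x T * (gb u x T * (gb u x T / ((pe k u x y T).V + 1)))

theorem FF_eq (Q : Sim) (hPRM : PRM_stmt) (k u x y T c d τ o a : ℕ) :
    FF Q k u x y T c d τ o a = (mcf (wA (sh (pm u x y T) o) (pe k u x y T) τ a)
      (wN (sh (pm u x y T) o) (pe k u x y T) τ d a) (wW (sh (pm u x y T) o) τ) (hh u x T)
      (w0 (sh (pm u x y T) o) (pe k u x y T) c) (cm (sh (pm u x y T) o) (pe k u x y T) c)
      (TT k u x y T)).1 := by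
  unfold FF
  rw [Q.eq _ _ (ok_mach hPRM _ _ _ _ _ _ _ _ _ _) (par_mach hPRM _ _ _ _ _ _ _ _ _ _)]
  rw [Pool.Agent.Helper28.Few.conf_eq]
  rfl

/-- The check. -/
noncomputable def ck (Q : Sim) (k u x y T : ℕ) : ℕ → ℕ → ℕ → ℕ :=
  chk (pm u x y T) (FF Q k u x y T)

/-- The configuration number `j`. -/
noncomputable def cj (Q : Sim) (k u x y T j : ℕ) : ℕ :=
  itr (ck Q k u x y T) (2 ^ th u x T) (nz (pm u x y T) (pe k u x y T)) j

/-- The simulation: not `0` if the machine with the code `u` accepts, with the bounds coded by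
`T`. -/
noncomputable def acc (Q : Sim) (k u x y T : ℕ) : ℕ :=
  gg u x T * (lt01 0 (capN (pm u x y T).S (pm u x y T).st) *
    ∑ j ∈ range (nz (pm u x y T) (pe k u x y T)), ∑ τ ∈ range (2 ^ th u x T),
      lt01 0 (cj Q k u x y T j) * ac (pm u x y T) (FF Q k u x y T) (cj Q k u x y T j) τ)

/-- The number of codes of bounds. -/
def NF (x : ℕ) : ℕ := (Nat.log 2 x + 2) ^ 4

theorem LS.NF : LS OHS.NF := by
  unfold OHS.NF
  exact (LS.add (LS.log2 (by fun_prop)) (LS.const 2)).pow_const 4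

theorem lt01_le (a b : ℕ) : lt01 a b ≤ 1 := by
  unfold lt01
  split_ifs <;> omega

theorem chk_le (m : Prm) (F : ℕ → ℕ → ℕ → ℕ → ℕ → ℕ) (c τ d : ℕ) : chk m F c τ d ≤ 1 := by
  unfold chk
  have h1 := lt01_le 0 τ
  have h2 := lt01_le 0 d
  have h3 := lt01_le 0 (∑ o ∈ range m.d,
    eq01 (∑ a ∈ range (2 ^ (m.κ * m.D) + 1), (1 - eq01 (F c d τ o a) 1)) 0)
  calc _ ≤ 1 * (1 * 1) := Nat.mul_le_mul h1 (Nat.mul_le_mul h2 h3)
    _ = 1 := rfl

theorem LS.acc (Q : Sim) (hLSW : LSW_stmt) (hLSK : LSK_stmt) (hPRM : PRM_stmt) (k : ℕ) :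
    LS (fun z : ℕ × ℕ × ℕ × ℕ => acc Q k z.1 z.2.1 z.2.2.1 z.2.2.2) := by
  have he : LS (fun z : ℕ × ℕ × ℕ × ℕ => z.1) := by fun_prop
  have hx : LS (fun z : ℕ × ℕ × ℕ × ℕ => z.2.1) := by fun_prop
  have hy : LS (fun z : ℕ × ℕ × ℕ × ℕ => z.2.2.1) := by fun_prop
  have hT' : LS (fun z : ℕ × ℕ × ℕ × ℕ => z.2.2.2) := by fun_prop
  obtain ⟨h1, h2, h3, h4, h5, h6⟩ := hPRM.ls _ k _ _ _ _ he hx hy hT'
  -- the simulation
  have hF : LS (fun z : (ℕ × ℕ × ℕ × ℕ) × ℕ × ℕ × ℕ × ℕ × ℕ =>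
      FF Q k z.1.1 z.1.2.1 z.1.2.2.1 z.1.2.2.2 z.2.1 z.2.2.1 z.2.2.2.1 z.2.2.2.2.1
        z.2.2.2.2.2) := by
    have he' : LS (fun z : (ℕ × ℕ × ℕ × ℕ) × ℕ × ℕ × ℕ × ℕ × ℕ => z.1.1) := by fun_prop
    have hx' : LS (fun z : (ℕ × ℕ × ℕ × ℕ) × ℕ × ℕ × ℕ × ℕ × ℕ => z.1.2.1) := by fun_prop
    have hy' : LS (fun z : (ℕ × ℕ × ℕ × ℕ) × ℕ × ℕ × ℕ × ℕ × ℕ => z.1.2.2.1) := by fun_prop
    have hT' : LS (fun z : (ℕ × ℕ × ℕ × ℕ) × ℕ × ℕ × ℕ × ℕ × ℕ => z.1.2.2.2) := by fun_prop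
    have ho' : LS (fun z : (ℕ × ℕ × ℕ × ℕ) × ℕ × ℕ × ℕ × ℕ × ℕ => z.2.2.2.2.1) := by fun_prop
    obtain ⟨g1, g2, g3, g4, g5, g6⟩ := hPRM.ls _ k _ _ _ _ he' hx' hy' hT'
    have g1' : PF (fun z : (ℕ × ℕ × ℕ × ℕ) × ℕ × ℕ × ℕ × ℕ × ℕ =>
        sh (pm z.1.1 z.1.2.1 z.1.2.2.1 z.1.2.2.2) z.2.2.2.2.1) (fun z => CS k z.1.2.1) :=
      { eA := g1.eA
        eN := g1.eN
        eW := g1.eW
        st := g1.st
        hΛ := g1.hΛ
        hβ := g1.hβ
        hB := g1.hB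
        x := g1.x
        y := g1.y
        S := g1.S
        κ := g1.κ
        D := g1.D
        d := g1.d
        o := ho'
        Tc := g1.Tc
        σ := g1.σ
        a := g1.a
        hC := g1.hC
        b1 := g1.b1
        b2 := g1.b2
        b3 := g1.b3
        b4 := g1.b4
        b5 := g1.b5
        b6 := g1.b6
        b7 := g1.b7
        b8 := g1.b8
        b9 := g1.b9
        b10 := g1.b10 }
    obtain ⟨w1, w2, w3, w4, w5, _⟩ := hLSW _ _ _ _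
      (fun z : (ℕ × ℕ × ℕ × ℕ) × ℕ × ℕ × ℕ × ℕ × ℕ => z.2.1)
      (fun z => z.2.2.1) (fun z => z.2.2.2.1) (fun z => z.2.2.2.2.2)
      g1' g2 (fun z => hPRM.nm k _ _ z.1.2.2.1 _) (by fun_prop) (by fun_prop) (by fun_prop)
      (by fun_prop)
    have hCH : LS (fun z : (ℕ × ℕ × ℕ × ℕ) × ℕ × ℕ × ℕ × ℕ × ℕ => CH z.1.2.1) := by
      unfold CH
      exact (LS.add hx' (LS.const 2)).pow_const 40000
    refine Q.ls hx' ?_ (fun z => par_mach hPRM _ _ _ _ _ _ _ _ _ _)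
    refine ⟨LS.add g2.V (LS.const 1), g1.a, LS.div g5 (LS.add g2.V (LS.const 1)), g5, g4, w1, w2,
      w3, w4, w5, hCH, fun z => ok_mach hPRM _ _ _ _ _ _ _ _ _ _,
      fun z => Q.nv _ _ (ok_mach hPRM _ _ _ _ _ _ _ _ _ _)
        (par_mach hPRM _ _ _ _ _ _ _ _ _ _), fun z => ?_⟩
    -- the number of steps in a macro step
    have q1 := (par_mach hPRM k z.1.1 z.1.2.1 z.1.2.2.1 z.1.2.2.2 z.2.1 z.2.2.1 z.2.2.2.1
      z.2.2.2.2.1 z.2.2.2.2.2).hh
    refine le_trans ?_ (Pool.Agent.Helper28.Few.CR_le_CH z.1.2.1)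
    unfold Pool.Agent.Helper81.Tok2.Mach.sv
    rw [← pow_mul]
    refine Pool.Agent.Helper28.Long.pow_le_CR (q1.trans ?_)
    have q2 := Pool.Agent.Helper28.Few.gH_le (Nat.log 2 z.1.2.1)
      (mach k z.1.1 z.1.2.1 z.1.2.2.1 z.1.2.2.2 z.2.1 z.2.2.1 z.2.2.2.1 z.2.2.2.2.1
        z.2.2.2.2.2).h
    have q3 := Pool.Agent.Helper69.Ram.gR_le (Nat.log 2 z.1.2.1)
    omega
  obtain ⟨hck, hac⟩ := hLSK _ _ _ h1 (fun z : ℕ × ℕ × ℕ × ℕ => FF Q k z.1 z.2.1 z.2.2.1 z.2.2.2)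
    hF
  obtain ⟨_, _, _, _, _, hnz⟩ := hLSW _ _ _ _
      (fun z : ℕ × ℕ × ℕ × ℕ => 0) (fun z => 0) (fun z => 0) (fun z => 0)
      h1 h2 (fun z => hPRM.nm k _ _ z.2.2.1 _) (by fun_prop) (by fun_prop) (by fun_prop)
      (by fun_prop)
  -- the sequence of configurations
  have hcj : LS (fun z : (ℕ × ℕ × ℕ × ℕ) × ℕ =>
      cj Q k z.1.1 z.1.2.1 z.1.2.2.1 z.1.2.2.2 z.2) := by
    unfold cj
    refine Pool.Agent.Helper31.SusD.LS.itr (α := (ℕ × ℕ × ℕ × ℕ) × ℕ)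
      (chk := fun z => ck Q k z.1.1 z.1.2.1 z.1.2.2.1 z.1.2.2.2)
      (LS.comp (g := fun z : ℕ × ℕ × ℕ × ℕ => 2 ^ th z.1 z.2.1 z.2.2.2) h6 LS.fst)
      (LS.comp (g := fun z : ℕ × ℕ × ℕ × ℕ => nz (pm z.1 z.2.1 z.2.2.1 z.2.2.2)
        (pe k z.1 z.2.1 z.2.2.1 z.2.2.2)) hnz LS.fst) LS.snd ?_ fun _ _ _ _ => chk_le _ _ _ _ _
    exact LS.comp (g := fun z : (ℕ × ℕ × ℕ × ℕ) × ℕ × ℕ × ℕ =>
      chk (pm z.1.1 z.1.2.1 z.1.2.2.1 z.1.2.2.2) (FF Q k z.1.1 z.1.2.1 z.1.2.2.1 z.1.2.2.2)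
        z.2.1 z.2.2.1 z.2.2.2)
      (f := fun z : ((ℕ × ℕ × ℕ × ℕ) × ℕ) × ℕ × ℕ × ℕ => (z.1.1, z.2.1, z.2.2.1, z.2.2.2)) hck
      (by fun_prop)
  have hin : LS (fun z : ((ℕ × ℕ × ℕ × ℕ) × ℕ) × ℕ =>
      lt01 0 (cj Q k z.1.1.1 z.1.1.2.1 z.1.1.2.2.1 z.1.1.2.2.2 z.1.2) *
      ac (pm z.1.1.1 z.1.1.2.1 z.1.1.2.2.1 z.1.1.2.2.2)
        (FF Q k z.1.1.1 z.1.1.2.1 z.1.1.2.2.1 z.1.1.2.2.2)
        (cj Q k z.1.1.1 z.1.1.2.1 z.1.1.2.2.1 z.1.1.2.2.2 z.1.2) z.2) := by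
    have hcj' : LS (fun z : ((ℕ × ℕ × ℕ × ℕ) × ℕ) × ℕ =>
        cj Q k z.1.1.1 z.1.1.2.1 z.1.1.2.2.1 z.1.1.2.2.2 z.1.2) :=
      LS.comp (g := fun z : (ℕ × ℕ × ℕ × ℕ) × ℕ =>
        cj Q k z.1.1 z.1.2.1 z.1.2.2.1 z.1.2.2.2 z.2) hcj LS.fst
    refine LS.mul (LS.lt01 (LS.const 0) hcj') ?_
    exact LS.comp (g := fun z : (ℕ × ℕ × ℕ × ℕ) × ℕ × ℕ =>
      ac (pm z.1.1 z.1.2.1 z.1.2.2.1 z.1.2.2.2) (FF Q k z.1.1 z.1.2.1 z.1.2.2.1 z.1.2.2.2)
        z.2.1 z.2.2)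
      (f := fun z : ((ℕ × ℕ × ℕ × ℕ) × ℕ) × ℕ =>
        (z.1.1, cj Q k z.1.1.1 z.1.1.2.1 z.1.1.2.2.1 z.1.1.2.2.2 z.1.2, z.2)) hac
      (LS.prodMk (by fun_prop) (LS.prodMk hcj' LS.snd))
  have hle : ∀ z : (ℕ × ℕ × ℕ × ℕ) × ℕ, ∀ τ,
      lt01 0 (cj Q k z.1.1 z.1.2.1 z.1.2.2.1 z.1.2.2.2 z.2) *
      ac (pm z.1.1 z.1.2.1 z.1.2.2.1 z.1.2.2.2)
        (FF Q k z.1.1 z.1.2.1 z.1.2.2.1 z.1.2.2.2)
        (cj Q k z.1.1 z.1.2.1 z.1.2.2.1 z.1.2.2.2 z.2) τ ≤ 1 := by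
    intro z τ
    calc _ ≤ 1 * 1 := Nat.mul_le_mul (lt01_le _ _) (lt01_le _ _)
      _ = 1 := rfl
  have hpow : LS (fun z : (ℕ × ℕ × ℕ × ℕ) × ℕ => 2 ^ th z.1.1 z.1.2.1 z.1.2.2.2) :=
    LS.comp (g := fun z : ℕ × ℕ × ℕ × ℕ => 2 ^ th z.1 z.2.1 z.2.2.2) h6 LS.fst
  have hs1 := LS.sum_le (α := (ℕ × ℕ × ℕ × ℕ) × ℕ)
    (N := fun z => 2 ^ th z.1.1 z.1.2.1 z.1.2.2.2) (B := fun _ => 1)
    (f := fun z τ => lt01 0 (cj Q k z.1.1 z.1.2.1 z.1.2.2.1 z.1.2.2.2 z.2) *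
      ac (pm z.1.1 z.1.2.1 z.1.2.2.1 z.1.2.2.2)
        (FF Q k z.1.1 z.1.2.1 z.1.2.2.1 z.1.2.2.2)
        (cj Q k z.1.1 z.1.2.1 z.1.2.2.1 z.1.2.2.2 z.2) τ) hin hpow (LS.const 1)
    fun z τ _ => hle z τ
  have hs2 := LS.sum_le (α := ℕ × ℕ × ℕ × ℕ)
    (N := fun z => nz (pm z.1 z.2.1 z.2.2.1 z.2.2.2) (pe k z.1 z.2.1 z.2.2.1 z.2.2.2))
    (B := fun z => 2 ^ th z.1 z.2.1 z.2.2.2)
    (f := fun z j => ∑ τ ∈ range (2 ^ th z.1 z.2.1 z.2.2.2),
      lt01 0 (cj Q k z.1 z.2.1 z.2.2.1 z.2.2.2 j) *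
      ac (pm z.1 z.2.1 z.2.2.1 z.2.2.2) (FF Q k z.1 z.2.1 z.2.2.1 z.2.2.2)
        (cj Q k z.1 z.2.1 z.2.2.1 z.2.2.2 j) τ) hs1 hnz h6 fun z j _ => by
      refine (sum_le_sum (g := fun _ => 1) fun τ _ => hle (z, j) τ).trans ?_
      simp
  unfold OHS.acc
  exact LS.mul h3 (LS.mul (LS.lt01 (LS.const 0) (LS.capN h1.S h1.st)) hs2)

/-! ### Codes -/

theorem exists_code (v : ℕ → ℕ) (N : ℕ) : ∃ u, ∀ i < N, cfi u i = v i := by
  refine ⟨Nat.pair (∑ i ∈ range N, v i + 1) (tab (∑ i ∈ range N, v i + 1) N v), fun i hi => ?_⟩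
  unfold cfi
  simp only [Nat.unpair_pair]
  refine dig_tab (fun j hj => ?_) hi
  have := single_le_sum (f := v) (fun _ _ => Nat.zero_le _) (mem_range.2 hj)
  omega

theorem lt_ne' {a : ℕ} : lt01 0 a ≠ 0 ↔ a ≠ 0 := lt_ne

/-- The parameters are right. -/
theorem par_pm (hPRM : PRM_stmt) {D : ℕ} (A : OneHead D) (hD : 0 < D) {u c₀ eA eN eW T : ℕ}
    {w y : List Bool} (hl : D ≤ ll w.length) (u0 : cfi u 0 = D) (u1 : cfi u 1 = eA)
    (u2 : cfi u 2 = eN) (u3 : cfi u 3 = eW) (u4 : cfi u 4 = num A.start)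
    (hc : ∀ S < gR w.length, ∀ Z ≤ ZL w.length,
      c₀ * (8 * S + 8 * Z + 8) ≤ LW w.length ∧
      c₀ + LW w.length + 8 * S + 8 * Z + 8 ≤ 2 ^ (2 * ll w.length) ∧
      ∀ x, Nat.log 2 x = w.length → 2 ^ (S + 2) ≤ CR x ∧ 2 ^ (Z + 2) ≤ CR x) :
    Par A eA eN eW c₀ w y (pm u (num w) (num y) T) := by
  have hlog : Nat.log 2 (num w) = w.length := Pool.Agent.Helper65.LinSpace.log_num w
  obtain ⟨_, _, h3, h4, h5, h6, _, _⟩ := hPRM.ok 0 u (num w) (num y) T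
  have hDD : DD u (num w) = D := by
    unfold DD dm
    rw [u0, hlog]
    exact min_eq_left hl
  have hmD : (pm u (num w) (num y) T).D = D := hDD
  rw [hlog] at h3
  obtain ⟨g1, g2, g3⟩ := hc (pm u (num w) (num y) T).S (by omega) 0 (Nat.zero_le _)
  refine ⟨u1, u2, u3, u4, rfl, rfl, hDD, hD, Nat.succ_pos _, h4, rfl, ?_, ?_, ?_, ?_⟩
  · rw [hmD] at h5
    exact h5
  · show c₀ * (4 * (pm u (num w) (num y) T).S + 8) ≤ LW (Nat.log 2 (num w))
    rw [hlog]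
    exact le_trans (Nat.mul_le_mul_left _ (by omega)) g1
  · show c₀ + LW (Nat.log 2 (num w)) + 4 * (pm u (num w) (num y) T).S + 8 ≤
      2 ^ (2 * ll (Nat.log 2 (num w)))
    rw [hlog]
    omega
  · refine le_trans (Nat.pow_le_pow_right (by norm_num) ?_) (g3 (num w) hlog).1
    omega

/-! ### Soundness -/

theorem sound (Q : Sim) (H : Parts) {D : ℕ} {A : OneHead D} {eA eN eW c₀ k u T : ℕ}
    {w y : List Bool} (hP : Par A eA eN eW c₀ w y (pm u (num w) (num y) T))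
    (hF : Fns A (pm u (num w) (num y) T)) (h : acc Q k u (num w) (num y) T ≠ 0) :
    ∃ r, A.AcceptsAt w y r := by
  unfold acc at h
  obtain ⟨_, _, _, _, _, _, _, h8⟩ := H.prm.ok k u (num w) (num y) T
  have hg := left_ne_zero_of_mul h
  have h1 := right_ne_zero_of_mul h
  have h2 := lt_ne.1 (left_ne_zero_of_mul h1)
  have h3 := right_ne_zero_of_mul h1
  obtain ⟨_, hsg⟩ := h8 hg
  have hsg' : (pm u (num w) (num y) T).sg ≤ (pe k u (num w) (num y) T).V + 1 := by omega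
  have hst : A.start.length ≤ (pm u (num w) (num y) T).S := by
    rw [hP.h_st] at h2
    exact Pool.Agent.Helper11.Ram.capN_num_le h2
  have h0 := H.dsc.start A eA eN eW c₀ w y _ (pe k u (num w) (num y) T) hP hst
  rw [Ne, sum_eq_zero_iff] at h3
  push Not at h3
  obtain ⟨j, _, h3⟩ := h3
  rw [Ne, sum_eq_zero_iff] at h3
  push Not at h3
  obtain ⟨τ, _, h3⟩ := h3
  have h4 := lt_ne.1 (left_ne_zero_of_mul h3)
  have h5 := right_ne_zero_of_mul h3
  rcases itr_sound (chk := ck Q k u (num w) (num y) T) (N := 2 ^ th u (num w) T)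
    (Z := nz (pm u (num w) (num y) T) (pe k u (num w) (num y) T))
    (R := fun c t => Rep (pm u (num w) (num y) T) (pe k u (num w) (num y) T) c (A.conf w y t)) h0
    (fun c t τ d hR _ hck => (H.chk.chk A eA eN eW c₀ w y _ _ hP hF hsg' _ _ _
      (fun c d τ o a => FF_eq Q H.prm k u (num w) (num y) T c d τ o a) c τ d t hR hck).1) j with
    h6 | ⟨t, h6⟩
  · exact absurd h6 h4
  · exact H.chk.ac A eA eN eW c₀ w y _ _ hP hF hsg' _ _ _
      (fun c d τ o a => FF_eq Q H.prm k u (num w) (num y) T c d τ o a) _ τ t h6 h5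

/-! ### Completeness -/

theorem box_inBox {D : ℕ} {b : ℕ} {p : Fin D → ℤ} (h : Box b p) : InBox (b + 1) p := by
  intro k
  obtain ⟨h1, h2⟩ := h k
  rw [Nat.add_sub_cancel, pow_succ]
  constructor <;> linarith

theorem chk_ne {m : Prm} {F : ℕ → ℕ → ℕ → ℕ → ℕ → ℕ} {c τ d o : ℕ} (hτ : 0 < τ) (hd : d ≠ 0)
    (ho : o < m.d) (h : ∀ a ≤ 2 ^ (m.κ * m.D), F c d τ o a = 1) : chk m F c τ d ≠ 0 := by
  unfold chk
  refine mul_ne_zero (lt_ne.2 hτ.ne') (mul_ne_zero (lt_ne.2 hd) (lt_ne.2 ?_))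
  intro h1
  rw [sum_eq_zero_iff] at h1
  have h2 := h1 o (mem_range.2 ho)
  have h3 : ∑ a ∈ range (2 ^ (m.κ * m.D) + 1), (1 - eq01 (F c d τ o a) 1) = 0 := by
    refine sum_eq_zero fun a ha => ?_
    rw [mem_range] at ha
    rw [h a (by omega), eq01, if_pos rfl, Nat.sub_self]
  rw [h3, eq01, if_pos rfl] at h2
  exact one_ne_zero h2

theorem ac_ne {m : Prm} {F : ℕ → ℕ → ℕ → ℕ → ℕ → ℕ} {c τ o : ℕ} (ho : o < m.d)
    (h : F c 0 τ o 0 = 1) : ac m F c τ ≠ 0 := by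
  unfold ac
  refine lt_ne.2 fun h1 => ?_
  rw [sum_eq_zero_iff] at h1
  have h2 := h1 o (mem_range.2 ho)
  rw [h, eq01, if_pos rfl] at h2
  exact one_ne_zero h2

theorem complete (Q : Sim) (H : Parts) {D : ℕ} {A : OneHead D} {E : Decomp}
    {eA eN eW c₀ k u : ℕ} {w y : List Bool} (hl : D ≤ ll w.length) (u0 : cfi u 0 = D)
    (hPar : ∀ T, Par A eA eN eW c₀ w y (pm u (num w) (num y) T))
    (hFns : ∀ T, Fns A (pm u (num w) (num y) T))
    (hCodE : ∀ T, CodE E (pe k u (num w) (num y) T)) {r s b a x h : ℕ}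
    (hacc : A.AcceptsAt w y r) (hfit : A.Fits w y r s) (hbox : ∀ t ≤ r, Box b (A.conf w y t).h)
    (hwin : ∀ t t' : ℕ, t ≤ t' → t' ≤ r →
      (∀ u, t < u → u < t' → ¬Short A E w y b a (k * w.length) u) →
      steps A w y t t' ≤ x ∧ (t' ≤ t + 2 ^ h * (x + 1) ∨ s + (b + 1) * D < h))
    (q1 : gd w.length D s b a h = 1) (q2 : s < w.length + 2) (q3 : b < w.length + 2)
    (q4 : a < w.length + 2) (q5 : h < w.length + 2)
    (q6 : 2 ^ h * (x + 1) + 2 ≤ 2 ^ (h + (4 * ll w.length + 5)))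
    (q7 : 2 * D * (2 * x + 1) + 3 * sd2 (gH w.length h) s D ≤ sd2 (gH w.length h) s D *
      (gH w.length h * (gH w.length h * (gH w.length h / (s + (b + 1) * D +
        (h + kap w.length)))))) :
    ∃ T < NF (num w), acc Q k u (num w) (num y) T ≠ 0 := by
  classical
  have hlog : Nat.log 2 (num w) = w.length := Pool.Agent.Helper65.LinSpace.log_num w
  -- the code of the bounds
  obtain ⟨f, hf⟩ : ∃ f : ℕ → ℕ, f = fun i => if i = 0 then s else if i = 1 then b else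
    if i = 2 then a else h := ⟨_, rfl⟩
  have hlt : ∀ i < 4, f i < w.length + 2 := by
    intro i _
    rw [hf]
    show (if i = 0 then s else if i = 1 then b else if i = 2 then a else h) < _
    split_ifs <;> assumption
  obtain ⟨T, hT⟩ : ∃ T, T = tab (w.length + 2) 4 f := ⟨_, rfl⟩
  have d0 : dig (w.length + 2) T 0 = s := by
    rw [hT, dig_tab hlt (by omega), hf]
    rfl
  have d1 : dig (w.length + 2) T 1 = b := by
    rw [hT, dig_tab hlt (by omega), hf]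
    rfl
  have d2 : dig (w.length + 2) T 2 = a := by
    rw [hT, dig_tab hlt (by omega), hf]
    rfl
  have d3 : dig (w.length + 2) T 3 = h := by
    rw [hT, dig_tab hlt (by omega), hf]
    rfl
  have hDD : DD u (num w) = D := by
    unfold DD dm
    rw [u0, hlog]
    exact min_eq_left hl
  have hgg : gg u (num w) T = 1 := by
    unfold gg gT
    rw [hDD, hlog, d0, d1, d2, d3]
    exact q1
  have ehh : hh u (num w) T = h := by
    unfold hh
    rw [hgg, hlog, d3, one_mul]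
  have egb : gb u (num w) T = gH w.length h := by
    unfold gb
    rw [ehh, hlog]
  have eth : th u (num w) T = h + (4 * ll w.length + 5) := by
    unfold th
    rw [ehh, hlog]
  obtain ⟨m, hm⟩ : ∃ m, m = pm u (num w) (num y) T := ⟨_, rfl⟩
  obtain ⟨e, he⟩ : ∃ e, e = pe k u (num w) (num y) T := ⟨_, rfl⟩
  have eS : m.S = s := by
    rw [hm]
    show gg u (num w) T * dig (Nat.log 2 (num w) + 2) T 0 = s
    rw [hgg, hlog, d0, one_mul]
  have eκ : m.κ = b + 1 := by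
    rw [hm]
    show gg u (num w) T * dig (Nat.log 2 (num w) + 2) T 1 + 1 = b + 1
    rw [hgg, hlog, d1, one_mul]
  have eD : m.D = D := by
    rw [hm]
    exact hDD
  have ed : m.d = sd2 (gH w.length h) s D := by
    rw [hm]
    show sd2 (gb u (num w) T) (gg u (num w) T * dig (Nat.log 2 (num w) + 2) T 0)
      (DD u (num w)) = _
    rw [hgg, hlog, d0, one_mul, egb, hDD]
  have eZ : e.Z = a := by
    rw [he]
    show gg u (num w) T * dig (Nat.log 2 (num w) + 2) T 2 = a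
    rw [hgg, hlog, d2, one_mul]
  have ez : e.z = k * w.length := by
    rw [he]
    show k * Nat.log 2 (num w) = _
    rw [hlog]
  have eV : e.V = s + (b + 1) * D + (h + (4 * ll w.length + 5)) := by
    rw [he]
    show gg u (num w) T * (dig (Nat.log 2 (num w) + 2) T 0 +
      (dig (Nat.log 2 (num w) + 2) T 1 + 1) * DD u (num w) +
      (dig (Nat.log 2 (num w) + 2) T 3 + (4 * ll (Nat.log 2 (num w)) + 5))) = _
    rw [hgg, hlog, d0, d1, d3, one_mul, hDD]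
  obtain ⟨_, _, _, _, _, _, _, h8⟩ := H.prm.ok k u (num w) (num y) T
  obtain ⟨_, hsgth⟩ := h8 (by rw [hgg]; exact one_ne_zero)
  have hP := hPar T
  have hFn := hFns T
  have hE := hCodE T
  rw [← hm] at hP hFn hsgth
  rw [← he] at hE hsgth
  have hsg : m.sg ≤ e.V + 1 := by omega
  -- the first accepting time
  have hex : ∃ t, A.AcceptsAt w y t := ⟨r, hacc⟩
  obtain ⟨r₀, hr₀, hmin, hle⟩ : ∃ r₀, A.AcceptsAt w y r₀ ∧ (∀ t < r₀, ¬A.AcceptsAt w y t) ∧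
      r₀ ≤ r := ⟨Nat.find hex, Nat.find_spec hex, fun t ht => Nat.find_min hex ht,
        Nat.find_min' hex hacc⟩
  have hfit₀ : ∀ t ≤ r₀, A.Fits w y t m.S := by
    intro t ht t' ht'
    rw [eS]
    exact hfit t' (by omega)
  have hbox₀ : ∀ t ≤ r₀, InBox m.κ (A.conf w y t).h := by
    intro t ht
    rw [eκ]
    exact box_inBox (hbox t (by omega))
  -- the time of a part
  have htime : ∀ t t', t ≤ t' → t' ≤ r₀ →
      (∀ u, t < u → u < t' → ¬Short A E w y b a (k * w.length) u) →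
      steps A w y t t' ≤ x ∧ t' ≤ t + 2 ^ h * (x + 1) := by
    intro t t' h1 h2 h3
    obtain ⟨h4, h5⟩ := hwin t t' h1 (by omega) h3
    refine ⟨h4, ?_⟩
    rcases h5 with h5 | h5
    · exact h5
    · exact H.lop A w y r₀ s b h x t t' (fun t ht => hfit t (by omega))
        (fun t ht => hbox t (by omega)) hr₀ hmin h1 h2 h4 h5
  have hτ2 : ∀ τ, τ ≤ 2 ^ h * (x + 1) → τ < 2 ^ th u (num w) T ∧
      2 + 2 ^ m.sg * (τ + 1) ≤ 2 ^ (e.V + 1) := by
    intro τ hτ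
    rw [eth]
    refine ⟨by omega, ?_⟩
    have h1 : 2 ≤ 2 ^ m.sg := by
      calc 2 = 2 ^ 1 := rfl
        _ ≤ 2 ^ m.sg := Nat.pow_le_pow_right (by norm_num) (by unfold Prm.sg; omega)
    calc 2 + 2 ^ m.sg * (τ + 1) ≤ 2 ^ m.sg * (τ + 2) := by
          have : 2 ^ m.sg * (τ + 2) = 2 ^ m.sg * (τ + 1) + 2 ^ m.sg := by ring
          omega
      _ ≤ 2 ^ m.sg * 2 ^ (h + (4 * ll w.length + 5)) := Nat.mul_le_mul_left _ (by omega)
      _ = 2 ^ (e.V + 1) := by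
          rw [← pow_add, ← hsgth, eth]
  have hTT : 2 * D * (2 * x + 1) + 3 * m.d ≤ m.d * TT k u (num w) (num y) T := by
    unfold TT
    rw [← he, egb, ed, eV]
    have e1 : s + (b + 1) * D + (h + (4 * ll w.length + 5)) + 1 =
        s + (b + 1) * D + (h + kap w.length) := by
      unfold kap
      omega
    rw [e1]
    exact q7
  -- a part
  have hpart : ∀ c d t t', Rep m e c (A.conf w y t) → t ≤ t' → t' ≤ r₀ →
      (∀ u, t < u → u < t' → ¬Short A E w y b a (k * w.length) u) →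
      (d = 0 → A.AcceptsAt w y t') → (d ≠ 0 → Rep m e d (A.conf w y t')) →
      t' - t < 2 ^ th u (num w) T ∧ ∃ o < m.d, ∀ a', (a' = 0 ∨ (d ≠ 0 ∧ a' ≤ 2 ^ (m.κ * m.D))) →
        FF Q k u (num w) (num y) T c d (t' - t) o a' = 1 := by
    intro c d t t' hR h1 h2 h3 h4 h5
    obtain ⟨g1, g2⟩ := htime t t' h1 h2 h3
    obtain ⟨g3, g4⟩ := hτ2 (t' - t) (by omega)
    refine ⟨g3, ?_⟩
    have e1 : t + (t' - t) = t' := by omega
    obtain ⟨o, ho, hw⟩ := H.win A eA eN eW c₀ w y m e hP hFn hsg c d (t' - t) t x h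
      (TT k u (num w) (num y) T) hR
      (by rw [e1]; exact hfit₀ t' h2) (fun u hu => hbox₀ u (by omega))
      (fun u hu _ => hmin u (by omega)) g4 (by rw [e1]; exact h4) (by rw [e1]; exact h5)
      (by rw [e1]; exact g1) (by omega) hTT
    refine ⟨o, ho, fun a' ha' => ?_⟩
    rw [FF_eq Q H.prm, ← hm, ← he, ehh]
    exact hw a' ha'
  have hst : A.start.length ≤ m.S := by
    rw [eS]
    exact (hfit 0 (Nat.zero_le _)).1
  have h0 : Rep m e 1 (A.conf w y 0) := H.dsc.start A eA eN eW c₀ w y m e hP hst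
  have hnz : 1 < nz m e := by
    unfold nz
    omega
  obtain ⟨j, hj, hj0, τ, hτ, hac⟩ := itr_complete (chk := chk m (FF Q k u (num w) (num y) T))
    (ac := ac m (FF Q k u (num w) (num y) T)) (N := 2 ^ th u (num w) T) (Z := nz m e) (r := r₀)
    (R := fun c t => Rep m e c (A.conf w y t)) hnz h0 (fun c t hR => hR.ne)
    (fun c t τ d hR _ hck => H.chk.chk A eA eN eW c₀ w y _ _ hP hFn hsg _ _ _
      (fun c d τ o a => by
        have := FF_eq Q H.prm k u (num w) (num y) T c d τ o a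
        rw [← hm, ← he] at this
        exact this) c τ d t hR hck)
    (fun c t hR ht => by
      by_cases hsh : ∃ v, t < v ∧ v ≤ r₀ ∧ Short A E w y b a (k * w.length) v
      · right
        obtain ⟨v, ⟨hv1, hv2, hv3⟩, hv4⟩ : ∃ v, (t < v ∧ v ≤ r₀ ∧
            Short A E w y b a (k * w.length) v) ∧ ∀ v' < v, ¬(t < v' ∧ v' ≤ r₀ ∧
            Short A E w y b a (k * w.length) v') :=
          ⟨Nat.find hsh, Nat.find_spec hsh, fun v' hv' => Nat.find_min hsh hv'⟩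
        have hexd : e.x = num w := by rw [he]; rfl
        have heyd : e.y = num y := by rw [he]; rfl
        obtain ⟨d, hd1, hd2, hd3⟩ := H.dsc.short A E eA eN eW c₀ w y m e hP hE hexd heyd b v eκ
          (hfit₀ v hv2 v le_rfl).1 (hbox v (by omega)) (by rw [eZ, ez]; exact hv3)
        obtain ⟨g1, o, ho, g2⟩ := hpart c d t v hR hv1.le hv2
          (fun u' hu1 hu2 hu3 => hv4 u' hu2 ⟨hu1, by omega, hu3⟩)
          (fun h => by omega) (fun _ => hd3)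
        refine ⟨v - t, g1, d, hd2, by omega, ?_⟩
        exact chk_ne (by omega) (by omega) ho fun a' ha' => g2 a' (Or.inr ⟨by omega, ha'⟩)
      · left
        push Not at hsh
        obtain ⟨g1, o, ho, g2⟩ := hpart c 0 t r₀ hR ht le_rfl
          (fun u' hu1 hu2 hu3 => hsh u' hu1 (by omega) hu3) (fun _ => hr₀)
          (fun h => absurd rfl h)
        exact ⟨r₀ - t, g1, ac_ne ho (g2 0 (Or.inl rfl))⟩)
  refine ⟨T, ?_, ?_⟩
  · unfold NF
    rw [hlog, hT]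
    exact tab_lt hlt
  · unfold acc
    rw [hgg, one_mul]
    refine mul_ne_zero (lt_ne.2 ?_) ?_
    · rw [← hm, hP.h_st, capN_num hst]
      exact (num_pos _).ne'
    · intro hsum
      rw [sum_eq_zero_iff] at hsum
      have h1 := hsum j (mem_range.2 (by rw [← hm, ← he]; exact hj))
      rw [sum_eq_zero_iff] at h1
      have h2 := h1 τ (mem_range.2 hτ)
      unfold cj ck at h2
      rw [← hm, ← he] at h2
      exact mul_ne_zero (lt_ne.2 hj0) hac h2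

theorem exists_good (Q : Sim) (H : Parts) (k : ℕ) {D : ℕ} (hD : 0 < D) (A : OneHead D)
    (E : Decomp) (C : ℝ) : ∃ u n₀ : ℕ, ∀ w y : List Bool, n₀ ≤ w.length →
    (∀ T < NF (num w), acc Q k u (num w) (num y) T ≠ 0 → ∃ r, A.AcceptsAt w y r) ∧
    (Within A E k C w y → ∃ T < NF (num w), acc Q k u (num w) (num y) T ≠ 0) := by
  obtain ⟨eA, eN, eW, eD, eX, c₀, hcod⟩ := H.cod A E
  obtain ⟨u, hu⟩ := exists_code (fun i => if i = 0 then D else if i = 1 then eA else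
    if i = 2 then eN else if i = 3 then eW else if i = 4 then num A.start else
    if i = 5 then eD else eX) 7
  obtain ⟨n₀, hn₀⟩ := eventually_atTop.1 (ev_cod c₀)
  obtain ⟨n₁, hn₁⟩ := eventually_atTop.1 (H.par D C hD)
  obtain ⟨n₂, hn₂⟩ := eventually_atTop.1 (Pool.Agent.Helper78.Mpc.ev_ll_ge D)
  refine ⟨u, n₀ + n₁ + n₂, fun w y hw => ?_⟩
  have hl : D ≤ ll w.length := hn₂ w.length (by omega)
  have hlog : Nat.log 2 (num w) = w.length := Pool.Agent.Helper65.LinSpace.log_num w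
  have hc := hn₀ w.length (by omega)
  have hPar : ∀ T, Par A eA eN eW c₀ w y (pm u (num w) (num y) T) := fun T =>
    par_pm H.prm A hD hl (hu 0 (by omega)) (hu 1 (by omega)) (hu 2 (by omega)) (hu 3 (by omega))
      (hu 4 (by omega)) hc
  have hcE : ∀ T, Fns A (pm u (num w) (num y) T) ∧ CodE E (pe k u (num w) (num y) T) := by
    intro T
    obtain ⟨_, _, _, _, _, _, h7, _⟩ := H.prm.ok k u (num w) (num y) T
    rw [hlog] at h7
    have hgR : 0 < gR w.length := Pool.Agent.Helper54.OH.gR_pos _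
    obtain ⟨g1, g2, g3⟩ := hc 0 hgR _ h7
    refine hcod w y _ _ (hPar T) (hu 5 (by omega)) (hu 6 (by omega)) ?_ ?_ (g3 _ hlog).2
    · show _ ≤ LW (Nat.log 2 (num w))
      rw [hlog]
      exact le_trans (Nat.mul_le_mul_left _ (by omega)) g1
    · show c₀ + LW (Nat.log 2 (num w)) + _ + 8 ≤ 2 ^ (2 * ll (Nat.log 2 (num w)))
      rw [hlog]
      omega
  refine ⟨fun T _ hT => sound Q H (hPar T) (hcE T).1 hT, ?_⟩
  rintro ⟨r, s, b, a, x, h, hacc, hfit, hbox, hwin, b1, b2, b3⟩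
  obtain ⟨q1, q2, q3, q4, q5, q6, q7⟩ := hn₁ w.length (by omega) x s b a h
    (one_le_of_accepts hfit hacc) b1 b2 b3
  exact complete Q H hl (hu 0 (by omega)) hPar (fun T => (hcE T).1) (fun T => (hcE T).2) hacc
    hfit hbox hwin q1 q2 q3 q4 q5 q6 q7

/-- **Average-case hardness for machines with one head, with any running time.** -/
theorem ohs_main (Q : Sim) (H : Parts) (c : ℕ) :
    ∃ (L : Set (List Bool)) (s : ℕ → List Bool), DLINSPACE L ∧
      (∀ n, (s n).length = n) ∧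
      (∀ w, w ∈ L ↔ Odd ((List.zipWith and (s w.length) w).count true)) ∧
      ∀ (D : ℕ), 0 < D → ∀ (A : OneHead D) (E : Decomp) (C : ℝ), ∃ c' : ℝ,
        ∀ (n : ℕ) (α : List Bool), ∀ M, M = L ∨ M = Lᶜ →
        ({w : List Bool | w.length = n ∧
          (Alt true (c * n) (fun v => ∃ r, A.AcceptsAt w (α ++ v) r) → w ∈ M) ∧
          (w ∈ M → Alt true (c * n) fun v => Within A E c C w (α ++ v))}.ncard : ℝ) ≤
          2 ^ n / 2 + c' * ((min α.length (n - α.length) : ℕ) + 1) *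
            2 ^ (((n : ℝ) + α.length) / 2) := by
  obtain ⟨L, s, h1, h2, h3, h4⟩ := Pool.Agent.Helper78.Gen2.alt_main (acc Q c) NF
    (LS.acc Q H.lsw H.lsk H.prm c) LS.NF c
  refine ⟨L, s, h1, h2, h3, fun D hD A E C => ?_⟩
  have h := h4 (fun w y => ∃ r, A.AcceptsAt w y r) (Within A E c C)
    (exists_good Q H c hD A E C)
  simp only [Pool.Agent.Helper28.Few.alt_iff] at h
  exact h

/-- Languages accepted by machines with one head whose tape has short descriptions now and then are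
in linear space. -/
theorem ohs_lin (Q : Sim) (H : Parts) (c : ℕ) {D : ℕ} (hD : 0 < D) (A : OneHead D) (E : Decomp)
    (L : Set (List Bool)) (C : ℝ)
    (h1 : ∀ w, Alt true (c * w.length) (fun v => ∃ r, A.AcceptsAt w v r) → w ∈ L)
    (h2 : ∀ w ∈ L, Alt true (c * w.length) (Within A E c C w)) : DLINSPACE L :=
  Pool.Agent.Helper78.Gen2.alt_lin (acc Q c) NF (LS.acc Q H.lsw H.lsk H.prm c) LS.NF c L
    (fun w y => ∃ r, A.AcceptsAt w y r) (Within A E c C) (exists_good Q H c hD A E C)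
    (fun w h => h1 w ((Pool.Agent.Helper28.Few.alt_iff _ _ _).1 h))
    (fun w hw => (Pool.Agent.Helper28.Few.alt_iff _ _ _).2 (h2 w hw))

end Pool.Agent.Helper28.OHS
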