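import Pool.Agent.Helper28.OHS.Fin
import Pool.Agent.Helper65.OH2.Final
import Pool.Agent.Helper65.Gen3.Goals
import Pool.Agent.Helper94.OHS.CEL
import Pool.Agent.Helper56.OHS.CUB
import Pool.Agent.Helper35.OHS.SLS
import Pool.Agent.Helper31.OHS.SLC
import Pool.Agent.Helper95.OHS.SND
import Pool.Agent.Helper90.OHS.CMP
import Pool.Agent.Helper5.OHS.WIN
import Pool.Agent.Helper55.OHS.DSC
import Pool.Agent.Helper26.OHS.CHK
import Pool.Agent.Helper15.OHS.LSW
import Pool.Agent.Helper60.OHS.LSK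
import Pool.Agent.Helper19.OHS.COD
import Pool.Agent.Helper49.OHS.LOP
import Pool.Agent.Helper70.OHS.PRM
import Pool.Agent.Helper9.OHS.PAR

/-!
# Machines with one head and descriptions of the tape: all the parts
-/

namespace Pool.Agent.Helper28.OHS

open Pool.Agent.Helper65.LinSpace Pool.Agent.Helper78.Mpc Pool.Agent.Helper28.Ram Finset Filter
open Pool.Agent.Helper65.OH (OneHead GEO)
open Pool.Agent.Helper81.Sus2 (Decomp)
open Pool.Agent.Helper28.Few (Sim)

/-- All the parts. -/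
theorem parts : Parts where
  win := Pool.Agent.Helper5.OHS.win Pool.Agent.Helper56.OHS.cub
    (Pool.Agent.Helper90.OHS.cmp GEO Pool.Agent.Helper94.OHS.cel Pool.Agent.Helper56.OHS.cub
      Pool.Agent.Helper31.OHS.slc)
  lop := Pool.Agent.Helper49.OHS.lop
  dsc := Pool.Agent.Helper55.OHS.dsc Pool.Agent.Helper94.OHS.cel
  chk := Pool.Agent.Helper26.OHS.chk
    (Pool.Agent.Helper95.OHS.snd GEO Pool.Agent.Helper94.OHS.cel Pool.Agent.Helper56.OHS.cub
      Pool.Agent.Helper35.OHS.sls) Pool.Agent.Helper56.OHS.cub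
  lsw := Pool.Agent.Helper15.OHS.lsw
  lsk := Pool.Agent.Helper60.OHS.lsk
  cod := Pool.Agent.Helper19.OHS.cod
  prm := Pool.Agent.Helper70.OHS.prm
  par := Pool.Agent.Helper9.OHS.par

/-- The lower bound, with advice of any linear length. -/
theorem ohs_alt (Q : Sim) (H : Parts) (h3 : Pool.Agent.Helper65.Gen3.ALT_stmt) (c k : ℕ)
    (hk : 0 < k) : ∃ L : Set (List Bool), DLINSPACE L ∧
      ∀ (D : ℕ), 0 < D → ∀ (A : OneHead D) (E : Decomp) (C : ℝ), ∃ c' : ℝ,
        ∀ (n : ℕ) (α : List Bool), ∀ M, M = L ∨ M = Lᶜ →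
        ({w : List Bool | w.length = n ∧
          (Alt true (c * n) (fun v => ∃ r, A.AcceptsAt w (α ++ v) r) → w ∈ M) ∧
          (w ∈ M → Alt true (c * n) fun v => Within A E c C w (α ++ v))}.ncard : ℝ) ≤
          2 ^ n / 2 + c' * ((α.length : ℝ) + 1) * 2 ^ (((n : ℝ) + α.length / k) / 2) := by
  obtain ⟨L, h1, h4⟩ := h3 (acc Q c) NF (LS.acc Q H.lsw H.lsk H.prm c) LS.NF c k hk
  refine ⟨L, h1, fun D hD A E C => ?_⟩
  have h := h4 (fun w y => ∃ r, A.AcceptsAt w y r) (Within A E c C)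
    (exists_good Q H c hD A E C)
  simp only [Pool.Agent.Helper28.Few.alt_iff] at h
  exact h

end Pool.Agent.Helper28.OHS
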