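import Pool.Agent.Helper28.OHS.Goals
import Pool.Agent.Helper81.Sus2.Goals2
import Pool.Agent.Helper65.OH2.MLS

/-!
# Machines with one head and descriptions of the tape: linear space, codes and parameters

Every statement comes with its proof in words.
-/

namespace Pool.Agent.Helper28.OHS

open Pool.Agent.Helper65.LinSpace Pool.Agent.Helper78.Mpc Pool.Agent.Helper28.Ram Finset Filter
open Pool.Agent.Helper65.OH (Prm OneHead Par Fns kap dm sd2)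
open Pool.Agent.Helper54.OH (PF)
open Pool.Agent.Helper81.Sus2 (Decomp CodE LSP)
open Pool.Agent.Helper81.Tok2 (gH)
open Pool.Agent.Helper28.Long (ZL)

/-! ### Linear space -/

/-- LSW. The functions of the machine on numbers are computed in linear space. The functions of `m`
(`blk`, `cel`, `wq`, `mkL`, `loc`, powers `psg`, `pS`, `pκ`, `pd`, `pa`) are in `Helper54/OH/MLS.lean` (namespace
`PF`; `PF.comp` for a larger context), those of `e` (`lk`, `2 ^ (V + 1)`) in `Helper81/Sus2/LSW.lean`.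
`cellN`: `LS.nrec` with the bound `2 ^ ((2 κ + 3) D + 1)`: all the coordinates `u k` which occur are
smaller than `2 ^ κ`, so `intN κ (u k) < 2 ^ (κ + 2)`, `sdN` of it is `< 2 ^ (2 κ + 4)`, and
`catN v x ≤ v * x` (`catN_lt` or `catN_num`). `rn`: `LS.nrec` as `PF.run` with the bound of `run_lt`; `ct` is a
sum of numbers `≤ 1`. `cm`: `LS.tab` with digits `cc < 2 ^ (S + 1)` (`capN_lt`). `eq01`, `lt01`, `ifz`, `dig`,
`capN` by `LS.eq01` etc. or `fun_prop`. -/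
def LSW_stmt : Prop := ∀ (α : Type) [Ctx α] (m : α → Prm)
    (e : α → Pool.Agent.Helper81.Sus2.Prm) (C c d τ a : α → ℕ), PF m C → LSP e C →
    (∀ z, 2 ^ ((2 * (m z).κ + 3) * (m z).D + 1) ≤ C z) → LS c → LS d → LS τ → LS a →
    LS (fun z : α × ℕ => wA (m z.1) (e z.1) (τ z.1) (a z.1) z.2) ∧
    LS (fun z : α × ℕ × ℕ => wN (m z.1) (e z.1) (τ z.1) (d z.1) (a z.1) z.2.1 z.2.2) ∧
    LS (fun z : α × ℕ × ℕ => wW (m z.1) (τ z.1) z.2.1 z.2.2) ∧
    LS (fun z => w0 (m z) (e z) (c z)) ∧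
    LS (fun z : α × ℕ => cm (m z.1) (e z.1) (c z.1) z.2) ∧
    LS (fun z => nz (m z) (e z))

/-- LSK. The checks are computed in linear space. `LS.sum_le` with the bounds `1`; `2 ^ (κ * D)` is
`(2 ^ κ) ^ D ≤ C` (`PF.b5`, `LS.pow_of_le`). Compare `Helper81/Sus2/LSE.lean`. -/
def LSK_stmt : Prop := ∀ (α : Type) [Ctx α] (m : α → Prm) (C : α → ℕ), PF m C →
    ∀ F : α → ℕ → ℕ → ℕ → ℕ → ℕ → ℕ,
    LS (fun z : α × ℕ × ℕ × ℕ × ℕ × ℕ => F z.1 z.2.1 z.2.2.1 z.2.2.2.1 z.2.2.2.2.1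
      z.2.2.2.2.2) →
    LS (fun z : α × ℕ × ℕ × ℕ => chk (m z.1) (F z.1) z.2.1 z.2.2.1 z.2.2.2) ∧
    LS (fun z : α × ℕ × ℕ => ac (m z.1) (F z.1) z.2.1 z.2.2)

/-! ### Codes -/

/-- COD. The codes come from `fnN_spec` (`Mpc/Words.lean`) for the five functions; `c₀` is the sum of the
constants. `Fns`: `fns` of `Helper53/OH/MCOR.lean` (in `Par` the constant `c₀` may be larger than the sum of
the three constants: `Par` with `c₀` implies `Par` with a smaller constant, or repeat the proof of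
`fns`). `CodE`: as in `Helper81/Sus2/COD.lean`; `fX` gets words of length at most `2 Z + 1 + 7`. -/
def COD_stmt : Prop := ∀ {D : ℕ} (A : OneHead D) (E : Decomp), ∃ eA eN eW eD eX c₀ : ℕ,
    ∀ (w y : List Bool) (m : Prm) (e : Pool.Agent.Helper81.Sus2.Prm), Par A eA eN eW c₀ w y m →
    e.eD = eD → e.eX = eX → c₀ * (8 * e.Z + 8) ≤ e.Λ → c₀ + e.Λ + 8 * e.Z + 8 ≤ e.β →
    2 ^ (e.Z + 2) ≤ e.B → Fns A m ∧ CodE E e

/-! ### The parameters

The bounds `S`, `b`, `Z`, `h` are the digits `0, …, 3` of `T`, in base `n + 2`. -/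

/-- `1` if the bounds are admissible. -/
def gd (n D S b Z h : ℕ) : ℕ :=
  le01 (S + (b + 1) * D + (h + kap n)) (gH n h) *
    (le01 ((S + (b + 1) * D + (h + kap n) + 1) * h) (gH n h) * le01 Z (ZL n))

/-- `1` if the bounds coded by `T` are admissible. -/
def gT (n D T : ℕ) : ℕ :=
  gd n D (dig (n + 2) T 0) (dig (n + 2) T 1) (dig (n + 2) T 2) (dig (n + 2) T 3)

/-- The number `i` of the code `u`. -/
def cfi (u i : ℕ) : ℕ := dig (Nat.unpair u).1 (Nat.unpair u).2 i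

/-- The dimension. -/
def DD (u x : ℕ) : ℕ := dm (Nat.log 2 x) (cfi u 0)

/-- `1` if the bounds are admissible. -/
def gg (u x T : ℕ) : ℕ := gT (Nat.log 2 x) (DD u x) T

/-- The number `h`. -/
def hh (u x T : ℕ) : ℕ := gg u x T * dig (Nat.log 2 x + 2) T 3

/-- The number of intervals of a block. -/
def gb (u x T : ℕ) : ℕ := gH (Nat.log 2 x) (hh u x T)

/-- The number of bits for the number of steps of a part. -/
def th (u x T : ℕ) : ℕ := hh u x T + (4 * ll (Nat.log 2 x) + 5)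

/-- The parameters of the machine. -/
def pm (u x y T : ℕ) : Prm where
  eA := cfi u 1
  eN := cfi u 2
  eW := cfi u 3
  st := cfi u 4
  Λ := LW (Nat.log 2 x)
  β := 2 ^ (2 * ll (Nat.log 2 x))
  B := CR x
  x := x
  y := y
  S := gg u x T * dig (Nat.log 2 x + 2) T 0
  κ := gg u x T * dig (Nat.log 2 x + 2) T 1 + 1
  D := DD u x
  d := sd2 (gb u x T) (gg u x T * dig (Nat.log 2 x + 2) T 0) (DD u x)
  o := 0
  Tc := 0
  σ := gg u x T * dig (Nat.log 2 x + 2) T 0 + 1 +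
    (gg u x T * dig (Nat.log 2 x + 2) T 1 + 1) * DD u x
  a := gb u x T * gb u x T

/-- The parameters of the decompressor; descriptions have `c n` bits. -/
def pe (c u x y T : ℕ) : Pool.Agent.Helper81.Sus2.Prm where
  eA := 0
  eN := 0
  eW := 0
  eK := 0
  eG := 0
  eR := 0
  eD := cfi u 5
  eX := cfi u 6
  ini := 0
  B0 := 0
  st := 0
  Λ := LW (Nat.log 2 x)
  β := 2 ^ (2 * ll (Nat.log 2 x))
  B := CR x
  x := x
  y := y
  S := 0
  Z := gg u x T * dig (Nat.log 2 x + 2) T 2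
  u := 0
  V := gg u x T * (dig (Nat.log 2 x + 2) T 0 +
    (dig (Nat.log 2 x + 2) T 1 + 1) * DD u x +
    (dig (Nat.log 2 x + 2) T 3 + (4 * ll (Nat.log 2 x) + 5)))
  z := c * Nat.log 2 x

/-- The bound for the numbers. -/
def CS (c x : ℕ) : ℕ := (x + 2) ^ (8000 + 41 * c)

/-- PRM. The parameters are computed in linear space, and admissible. `n = log₂ x`. If `gg = 0` then
`S = Z = V = hh = 0`, `κ = 1`; `DD ≤ ll n` (`dm`). Otherwise `gg = 1` and the three inequalities of `gd`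
hold, so `S + κ D + h + kap n = V + 1 ≤ gH n h ≤ gR n` (`Few.gH_le`; `Helper69.Ram.gR_le` etc.),
`Z ≤ ZL n ≤ n` (`ZL_le`). In both cases `(2 κ + 3) D + 1 ≤ 24 (n + 1)`; `(2 ^ κ) ^ D = 2 ^ (κ D)`. `PF`: as
`pf2` in `Helper65/OH2/MLS.lean` (`sd2_spec`, `sd2_le`, `LS_sd2`, `LS_gH` in `Few/Mach.lean`,
`two_pow_le_CR`; `CR x ≤ CS c x`). `LSP`: as in `Helper81/Sus2/PRM.lean`; `2 ^ t ≤ CR x` for
`t ≤ 24 * (n + 1)` (`Long.pow_le_CR`); `2 ^ (c n + 2) ≤ 4 (x + 2) ^ c`. `S + 1 ≤ gb` in both cases, for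
`sd2_spec`. -/
structure PRM_stmt : Prop where
  ls : ∀ (α : Type) [Ctx α] (c : ℕ) (u x y T : α → ℕ), LS u → LS x → LS y → LS T →
    PF (fun z => pm (u z) (x z) (y z) (T z)) (fun z => CS c (x z)) ∧
    LSP (fun z => pe c (u z) (x z) (y z) (T z)) (fun z => CS c (x z)) ∧
    LS (fun z => gg (u z) (x z) (T z)) ∧ LS (fun z => hh (u z) (x z) (T z)) ∧
    LS (fun z => gb (u z) (x z) (T z)) ∧ LS (fun z => 2 ^ th (u z) (x z) (T z))
  nm : ∀ c u x y T : ℕ, 2 ^ ((2 * (pm u x y T).κ + 3) * (pm u x y T).D + 1) ≤ CS c x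
  ok : ∀ c u x y T : ℕ, (pe c u x y T).V + 1 ≤ gb u x T ∧
    ((pe c u x y T).V + 2) * hh u x T ≤ gb u x T ∧ gb u x T ≤ gR (Nat.log 2 x) ∧
    0 < (pm u x y T).d ∧ ((pm u x y T).S + 1) * (pm u x y T).d ^ (pm u x y T).D ≤ (pm u x y T).a ∧
    (pm u x y T).S + 1 ≤ gb u x T ∧ (pe c u x y T).Z ≤ ZL (Nat.log 2 x) ∧
    (gg u x T ≠ 0 → gg u x T = 1 ∧ (pm u x y T).sg + th u x T = (pe c u x y T).V + 1)

/-- PAR. The bounds of the theorem give admissible parameters. The proof of PAR2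
(`Helper25/OH2/PAR2.lean`, copy it) with `Ln = ll n + h + b` in place of `ll n + h` (`n + 1 ≤ g * g * Ln`
follows from `Few.lt_gH_sq`, `g = gH n h`) and `σ = s + (b + 1) * D + (h + kap n)` in place of
`s + (h + kap n) * D + 1`: `(b + 1) * D + (h + kap n) + 1 ≤ 12 * (D * Ln)` as `kap n = 4 * ll n + 6`,
`D ≥ 1`, `ll n ≥ 1`. It gives the first two conditions of `gd`, `x + 1 ≤ (n + 2) ^ 4` and the last claim.
`2 * (n + 2) ^ 4 ≤ 2 ^ (4 * ll n + 5)` since `n < 2 ^ ll n`, `n + 2 ≤ 2 ^ (ll n + 1)`, so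
`2 ^ h * (x + 1) + 2 ≤ 2 ^ (h + (4 * ll n + 5))` (`2 ≤ 2 ^ h * (n + 2) ^ 4`). `a ≤ ZL n`: `Long.le_ZL` as in
`ev_few` (`Few/Par.lean`). `s, b, h ≤ g ≤ n + 1`, and `a ≤ ZL n ≤ n`. -/
def PAR_stmt : Prop := ∀ (D : ℕ) (C : ℝ), 0 < D → ∀ᶠ n : ℕ in atTop, ∀ x s b a h : ℕ, 1 ≤ s →
    (x : ℝ) * (s : ℝ) ^ (1 + 1 / (D : ℝ)) * (((h + b : ℕ) : ℝ) + ((Nat.log 2 n : ℝ) + 1)) ^ 4 ≤
      C * ((n : ℝ) + 1) ^ ((3 : ℝ) / 2 + 1 / (D : ℝ)) →
    ((s : ℝ) + (((h + b : ℕ) : ℝ) + ((Nat.log 2 n : ℝ) + 1))) * ((h : ℝ) + 1) *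
      (((h + b : ℕ) : ℝ) + ((Nat.log 2 n : ℝ) + 1)) ≤ C * ((n : ℝ) + 1) ^ ((1 : ℝ) / 2) →
    (a : ℝ) * (((h + b : ℕ) : ℝ) + ((Nat.log 2 n : ℝ) + 1)) ^ 2 ≤ C * ((n : ℝ) + 1) →
    gd n D s b a h = 1 ∧ s < n + 2 ∧ b < n + 2 ∧ a < n + 2 ∧ h < n + 2 ∧
    2 ^ h * (x + 1) + 2 ≤ 2 ^ (h + (4 * ll n + 5)) ∧
    2 * D * (2 * x + 1) + 3 * sd2 (gH n h) s D ≤ sd2 (gH n h) s D *
      (gH n h * (gH n h * (gH n h / (s + (b + 1) * D + (h + kap n)))))

end Pool.Agent.Helper28.OHS
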