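import Pool.Agent.Helper28.OHS.Defs
import Pool.Agent.Helper65.OH2.Num
import Pool.Agent.Helper81.Sus2.Num
import Pool.Agent.Helper31.SusD.Grd

/-!
# The machine on numbers for a part of a computation of a machine with one head

`m` has the parameters of the machine, `e` those of the decompressor (`e.Z` is the length of its
states, `e.z` the length of the descriptions), and the events are smaller than `2 ^ (e.V + 1)`. An
event is `0` (failure), `1` (the final check was successful), or codes state and position and the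
number of the steps since the start of the part. State and position are coded by a number `q` as in
`Pool/Agent/Helper65/OH/Num.lean`.
-/

namespace Pool.Agent.Helper28.OHS

open Pool.Agent.Helper65.LinSpace Pool.Agent.Helper78.Mpc Pool.Agent.Helper28.Ram Finset
open Pool.Agent.Helper65.OH (Prm)

/-! ### Names of cells -/

/-- The number of the word of the binary digits of `a`. -/
def binN (a : ℕ) : ℕ := a + ifz a 1 (2 * 2 ^ Nat.log 2 a)

/-- The number of the word for the integer `u - 2 ^ (κ - 1)`. -/
def intN (κ u : ℕ) : ℕ :=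
  le01 (2 ^ (κ - 1)) u + 2 * binN ((u - 2 ^ (κ - 1)) + (2 ^ (κ - 1) - u))

/-- The number of the name of the cell with the coordinates `u k - 2 ^ (κ - 1)`, `k < D`. -/
def cellN (κ : ℕ) (u : ℕ → ℕ) (D : ℕ) : ℕ := nrec 1 (fun k v => catN v (sdN (intN κ (u k)))) D

section

variable (m : Prm) (e : Pool.Agent.Helper81.Sus2.Prm)

/-! ### Configurations -/

/-- The number of configurations. -/
def nz : ℕ := 2 + 2 ^ m.sg * 2 ^ (e.z + 1)

/-- State and position of the configuration `c`. -/
def cs (c : ℕ) : ℕ :=
  ifz (eq01 c 1) ((c - 2) % 2 ^ m.sg) (m.mk' (capN m.S m.st) fun _ => 2 ^ (m.κ - 1))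

/-- The content of the cell with the name `x` in the configuration `c`. -/
def cn (c x : ℕ) : ℕ := capN m.S (ifz (eq01 c 1) (e.lk ((c - 2) / 2 ^ m.sg) x) 1)

/-- The content of the cell number `j` in the cube `B` in the configuration `c`. -/
def cc (c B j : ℕ) : ℕ :=
  cn m e c (cellN m.κ (fun k => (dig (2 ^ m.κ) B k * m.d + dig m.d j k - m.o) % 2 ^ m.κ) m.D)

/-- The content of the cube `B` in the configuration `c`. -/
def cm (c B : ℕ) : ℕ := tab (2 ^ (m.S + 1)) (m.d ^ m.D) (cc m e c B) % 2 ^ m.a

/-! ### Events -/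

/-- The event with state and position `q` after `t` steps. -/
def enc (q t : ℕ) : ℕ := 2 + (q + 2 ^ m.sg * t)

/-- State and position of the event `Q`. -/
def dq (Q : ℕ) : ℕ := (Q - 2) % 2 ^ m.sg

/-- The number of steps before the event `Q`. -/
def dt (Q : ℕ) : ℕ := (Q - 2) / 2 ^ m.sg

/-! ### Steps in a cube -/

/-- The code `z` of state, position and content of the cube `b` after `n` steps; the steps outside
the cube are not made. -/
def rn (b z n : ℕ) : ℕ := nrec z (fun _ z => m.loc b z) n

/-- `1` if a step is made: the head is in the cube `b`, and the state is not accepting. -/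
def act (b z : ℕ) : ℕ := eq01 (m.blk (z % 2 ^ m.sg)) b * (1 - accN (m.wq (z % 2 ^ m.sg)))

/-- The number of the steps which are made. -/
def ct (b z n : ℕ) : ℕ := ∑ j ∈ range n, act m b (rn m b z j)

/-! ### The machine

It starts with the configuration `c` and makes `τ` steps. Then it compares state and position, and
the content of the cell number `a - 1` if `a` is not `0`, with those of the configuration `d`; if
`d = 0` it checks if the state is accepting. -/

/-- The cube which is read. -/
def wA (τ a Q : ℕ) : ℕ :=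
  capN e.V (ifz (lt01 1 Q) 0
    (ifz (eq01 (dt m Q) τ) (m.blk (dq m Q)) (m.blk (2 ^ (m.S + 1) * (a - 1)))))

/-- The result of the final check. -/
def wF (d a Q v : ℕ) : ℕ :=
  ifz d (accN (m.wq (dq m Q))) (eq01 (dq m Q) (cs m d) *
    ifz a 1 (eq01 (dig (2 ^ (m.S + 1)) v (m.cel (2 ^ (m.S + 1) * (a - 1))))
      (cn m e d (cellN m.κ (dig (2 ^ m.κ) (a - 1)) m.D))))

/-- The code of state, position and content after the steps in the cube. -/
def wz (τ Q v : ℕ) : ℕ := rn m (m.blk (dq m Q)) (dq m Q + 2 ^ m.sg * v) (τ - dt m Q)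

/-- The number of the steps in the cube. -/
def wc (τ Q v : ℕ) : ℕ := ct m (m.blk (dq m Q)) (dq m Q + 2 ^ m.sg * v) (τ - dt m Q)

/-- The next event. -/
def wN (τ d a Q v : ℕ) : ℕ :=
  capN e.V (ifz (lt01 1 Q) Q (ifz (eq01 (dt m Q) τ)
    (ifz (m.wq (wz m τ Q v % 2 ^ m.sg)) 0 (enc m (wz m τ Q v % 2 ^ m.sg) (dt m Q + wc m τ Q v)))
    (wF m e d a Q v)))

/-- The new content of the cube. -/
def wW (τ Q v : ℕ) : ℕ :=
  ifz (lt01 1 Q) v (ifz (eq01 (dt m Q) τ) (wz m τ Q v / 2 ^ m.sg) v) % 2 ^ m.a

/-- The first event. -/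
def w0 (c : ℕ) : ℕ := capN e.V (enc m (cs m c) 0)

/-- The configuration of the machine on numbers after `t` steps. -/
def wf (τ c d a t : ℕ) : ℕ × (ℕ → ℕ) :=
  cf (wA m e τ a) (wN m e τ d a) (wW m τ) (w0 m e c) (cm m e c) t

/-- The token machine. -/
def tok (τ c d a h g : ℕ) : Pool.Agent.Helper81.Tok2.Mach where
  σ := e.V + 1
  a := m.a
  b := g / (e.V + 1)
  G := g
  h := h
  A := wA m e τ a
  N := wN m e τ d a
  W := wW m τ
  q0 := w0 m e c
  M0 := cm m e c

/-! ### The check -/

/-- `1` if for some shift of the grid all checks are successful; `F c d τ o a` is the result of the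
simulation with the shift `o`. -/
def chk (F : ℕ → ℕ → ℕ → ℕ → ℕ → ℕ) (c τ d : ℕ) : ℕ :=
  lt01 0 τ * (lt01 0 d * lt01 0 (∑ o ∈ range m.d,
    eq01 (∑ a ∈ range (2 ^ (m.κ * m.D) + 1), (1 - eq01 (F c d τ o a) 1)) 0))

/-- `1` if for some shift of the grid the computation is accepting after `τ` steps. -/
def ac (F : ℕ → ℕ → ℕ → ℕ → ℕ → ℕ) (c τ : ℕ) : ℕ :=
  lt01 0 (∑ o ∈ range m.d, eq01 (F c 0 τ o 0) 1)

end

end Pool.Agent.Helper28.OHS
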